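import Pool.Agent.Run7.h12.HL.Gen

/-!
# Chains of different inner blocks

An inner block is described by the exponents of its sizes (`Lv`).  A chain is a list of such
descriptions; the head of the list is the block that is composed last.
-/

set_option linter.unusedSectionVars false
set_option linter.unusedVariables false
set_option maxHeartbeats 1000000

namespace Pool.Agent.Run7.H12.HL

open Finset Pool.Agent.N35.HL

/-- rescaling and choosing a class of events -/
theorem HasG.up {F N E P Q T L Rd : ℕ} (h : HasG F N E P Q T L Rd) (hQ : 1 ≤ Q) (hL : 1 ≤ L) :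
    ∃ Δ' E', HasI N E' P (2 * L * Rd) Δ' (4 * Rd * L ^ 2) (12 * Q) ∧
      E ≤ E' * (Nat.log 2 (12 * Rd) + 1) := by
  classical
  obtain ⟨hP, hE, hF, A, R, H, _, _, _, O, k, K, hO, hA, hR, hH⟩ := h
  choose n hn1 hn2 hn3 using hO.nD
  -- natural slopes
  have hs : ∀ c, ∃ m : ℕ, (m : ℝ) = O.s c * Rd + L * Rd := by
    intro c
    obtain ⟨z, hz⟩ := hO.slopes c
    have h1 : O.s c * Rd + L * Rd = ((z + L * Rd : ℤ) : ℝ) := by push_cast; rw [← hz]
    have h2 : (0:ℝ) ≤ ((z + L * Rd : ℤ) : ℝ) := by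
      rw [← h1]
      have := (abs_le.mp (hO.bs c)).1
      have hR0 : (0:ℝ) ≤ (Rd:ℝ) := by positivity
      have := mul_le_mul_of_nonneg_right this hR0
      linarith
    have h3 : 0 ≤ z + L * Rd := by exact_mod_cast h2
    refine ⟨(z + L * Rd).toNat, ?_⟩
    rw [h1]
    have h4 : (((z + L * Rd).toNat : ℕ) : ℤ) = z + L * Rd := Int.toNat_of_nonneg h3
    rw [← h4]; push_cast; rfl
  choose σ hσ using hs
  set J := Nat.log 2 (12 * Rd) + 1 with hJ
  -- the classes
  have hmaps : ∀ e ∈ (Finset.univ : Finset R), Nat.log 2 (n e) ∈ Finset.range J := by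
    intro e _
    rw [Finset.mem_range, hJ]
    have := Nat.log_mono_right (b := 2) (hn3 e)
    omega
  have hJ0 : 0 < J := by omega
  have hcard : E = ∑ j ∈ Finset.range J,
      (Finset.univ.filter (fun e : R => Nat.log 2 (n e) = j)).card := by
    rw [← hR, ← Finset.card_univ]
    exact Finset.card_eq_sum_card_fiberwise hmaps
  obtain ⟨j, hj, hj2⟩ : ∃ j ∈ Finset.range J,
      E ≤ (Finset.univ.filter (fun e : R => Nat.log 2 (n e) = j)).card * J := by
    by_contra hcon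
    push Not at hcon
    have h1 : ∑ j ∈ Finset.range J,
        (Finset.univ.filter (fun e : R => Nat.log 2 (n e) = j)).card * J <
        ∑ _j ∈ Finset.range J, E :=
      Finset.sum_lt_sum_of_nonempty (Finset.nonempty_range_iff.mpr hJ0.ne') hcon
    rw [← Finset.sum_mul, ← hcard] at h1
    simp only [Finset.sum_const, Finset.card_range, smul_eq_mul] at h1
    rw [mul_comm] at h1
    exact lt_irrefl _ h1
  set S : R → Prop := fun e => Nat.log 2 (n e) = j with hS
  have hScard : Fintype.card {e : R // S e} =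
      (Finset.univ.filter (fun e : R => Nat.log 2 (n e) = j)).card := Fintype.card_subtype S
  have hpos : 1 ≤ (Finset.univ.filter (fun e : R => Nat.log 2 (n e) = j)).card := by
    by_contra h1
    have h2 : (Finset.univ.filter (fun e : R => Nat.log 2 (n e) = j)).card = 0 := by omega
    rw [h2, zero_mul] at hj2
    omega
  have hne : ∃ e, S e := by
    obtain ⟨e, he⟩ := Finset.card_pos.mp hpos
    exact ⟨e, (Finset.mem_filter.mp he).2⟩
  have hgood := hO.inn (Q := Q) rfl hQ hL σ hσ (2 ^ j) Nat.one_le_two_pow S hne (by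
    intro e he
    rw [← hn1 e]
    have he' : Nat.log 2 (n e) = j := he
    have h1 : 2 ^ j ≤ n e := by
      rw [← he']; exact Nat.pow_log_le_self 2 (by have := hn2 e; omega)
    have h2 : n e ≤ 2 * 2 ^ j := by
      have := Nat.lt_pow_succ_log_self (b := 2) (by norm_num) (n e)
      rw [he', pow_succ] at this
      omega
    constructor
    · exact_mod_cast h1
    · exact_mod_cast h2)
  refine ⟨2 ^ j, Fintype.card {e : R // S e}, ⟨hP, by rw [hScard]; exact hpos, A, {e : R // S e}, H,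
    inferInstance, inferInstance, inferInstance, O.inn Rd L σ S, k, hgood, hA, rfl, hH⟩, ?_⟩
  rw [hScard]
  exact hj2

/-- description of an inner block by exponents -/
structure Bk where
  t : ℕ
  r : ℕ
  w : ℕ
  b : ℕ
  β : ℝ

/-- the block exists -/
def Bk.Ok (x : Bk) : Prop := Lv x.t x.r x.w x.b x.β ∧ 0 ≤ x.β

/-- exponent of the number of slots -/
def Sb : List Bk → ℕ
  | [] => 0
  | x :: l => x.b + Sb l

/-- exponent of the scale of the slopes -/
def St (B : ℕ) : List Bk → ℕ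
  | [] => 17
  | x :: l => 34 + x.r + 2 * B + St B l

/-- exponent of the number of lines -/
def Sn (B : ℕ) : List Bk → ℕ
  | [] => 1
  | x :: l => 18 + x.t + x.r + 2 * B + Sn B l

/-- exponent of the margins -/
def Sq (B : ℕ) : List Bk → ℕ
  | [] => 34
  | x :: l => 100 + x.w + 5 * x.r + 5 * B + Sq B l

/-- product of the ratios -/
def Pr : List Bk → ℝ
  | [] => 1
  | x :: l => x.β * Pr l

lemma Pr_nonneg {l : List Bk} (h : ∀ x ∈ l, x.Ok) : 0 ≤ Pr l := by
  induction l with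
  | nil => simp [Pr]
  | cons x l ih =>
    simp only [Pr]
    exact mul_nonneg (h x (by simp)).2 (ih (fun y hy => h y (by simp [hy])))

/-- the precision is sufficient for all compositions -/
def Fits (d B : ℕ) : List Bk → Prop
  | [] => True
  | x :: l => 59 + St B l + x.w + 3 * x.r + 3 * B ≤ d ∧ Fits d B l

lemma exists_z {Rz Δ : ℕ} (hΔ : 1 ≤ Δ) (hR : Δ ≤ Rz) :
    ∃ z, Rz ≤ z * Δ ∧ z ≤ Rz ∧ Δ * z ≤ 2 * Rz := by
  refine ⟨(Rz + Δ - 1) / Δ, ?_, ?_, ?_⟩
  · have h1 := Nat.div_add_mod (Rz + Δ - 1) Δ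
    have h2 := Nat.mod_lt (Rz + Δ - 1) (show Δ > 0 by omega)
    rw [mul_comm] at h1
    omega
  · apply Nat.div_le_of_le_mul
    obtain ⟨e, rfl⟩ : ∃ e, Δ = e + 1 := ⟨Δ - 1, by omega⟩
    have h3 : 1 * e ≤ Rz * e := Nat.mul_le_mul_right _ (by omega)
    have h4 : (e + 1) * Rz = Rz * e + Rz := by ring
    omega
  · have h1 := Nat.mul_div_le (Rz + Δ - 1) Δ
    omega

/-- composition of a list of blocks -/
theorem chain {d B : ℕ} (hd : 1 ≤ d) (l : List Bk) (hl : ∀ x ∈ l, x.Ok) (hf : Fits d B l)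
    (hB : Sb l ≤ B) :
    ∃ F N E P Q T, HasG F N E P Q T (3 ^ l.length) (2 ^ d) ∧ 1 ≤ Q ∧ 1 ≤ T ∧
      P ≤ 2 ^ Sb l ∧ T * F ≤ 2 ^ St B l ∧ N ≤ 2 ^ Sn B l ∧ Q * F ^ 2 ≤ 2 ^ Sq B l ∧
      2500 / 10506 * Pr l * N * 5253 ≤ 2500 * E := by
  induction l with
  | nil =>
    refine ⟨51200, 2, 1, 1, 4, 2, by simpa using HasG.start hd, by norm_num, by norm_num,
      by simp [Sb], by simp [St], by simp [Sn], by simp [Sq], ?_⟩
    simp only [Pr]; norm_num
  | cons x l ih =>
    have hB' : x.b + Sb l ≤ B := hB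
    obtain ⟨hf1, hf2⟩ := hf
    obtain ⟨F, N, E, P, Q, T, h1, hQ, hT, h2, h3, h4, h5, h6⟩ :=
      ih (fun y hy => hl y (by simp [hy])) hf2 (by omega)
    obtain ⟨⟨g, E₂, P₂, Rz, Δ, U, M, hI, hg, hR, hUM, hP, hr⟩, hβ⟩ := hl x (by simp)
    have hΔ := hI.Δ_pos
    have hΔR := hI.Δ_le
    have hRz := hI.Rz_pos
    have hU := hI.U_pos
    have hM := hI.M_pos
    have hP₂ : 1 ≤ P₂ := hI.1
    have hP1 : 1 ≤ P := h1.1
    have hF1 : 51200 * P ≤ F := h1.2.2.1
    obtain ⟨z, hz1, hz2, hz3⟩ := exists_z hΔ hΔR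
    have hz0 : 1 ≤ z := by
      by_contra h
      have : z = 0 := by omega
      subst this
      omega
    have hPP : P ^ 3 * P₂ ≤ 2 ^ (3 * B) := by
      calc P ^ 3 * P₂ ≤ (2 ^ Sb l) ^ 3 * (50 * P₂) :=
            Nat.mul_le_mul (Nat.pow_le_pow_left h2 3) (by omega)
        _ ≤ (2 ^ Sb l) ^ 3 * 2 ^ x.b := Nat.mul_le_mul_left _ hP
        _ = 2 ^ (Sb l * 3 + x.b) := by rw [← pow_mul, ← pow_add]
        _ ≤ 2 ^ (3 * B) := Nat.pow_le_pow_right (by norm_num) (by omega)
    have hMU : M * U * Rz ^ 3 ≤ 2 ^ (x.w + 3 * x.r) := by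
      calc M * U * Rz ^ 3 ≤ 2 ^ x.w * (2 ^ x.r) ^ 3 := by
            apply Nat.mul_le_mul
            · rw [mul_comm]; exact hUM
            · exact Nat.pow_le_pow_left hR 3
        _ = 2 ^ (x.w + x.r * 3) := by rw [← pow_mul, ← pow_add]
        _ = _ := by congr 1; ring
    have hc := h1.comp hI hQ hT hz1 hz2 (by
      calc 2 ^ 59 * ((T * F) * (M * U * Rz ^ 3) * (P ^ 3 * P₂))
          ≤ 2 ^ 59 * (2 ^ St B l * 2 ^ (x.w + 3 * x.r) * 2 ^ (3 * B)) := by
            apply Nat.mul_le_mul_left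
            exact Nat.mul_le_mul (Nat.mul_le_mul h3 hMU) hPP
        _ = 2 ^ (59 + (St B l + (x.w + 3 * x.r) + 3 * B)) := by
            rw [← pow_add, ← pow_add, ← pow_add]
        _ ≤ 2 ^ d := Nat.pow_le_pow_right (by norm_num) (by omega))
    have e3 : 3 * 3 ^ l.length = 3 ^ (x :: l).length := by
      rw [List.length_cons, pow_succ]; ring
    rw [e3] at hc
    have hTF : 0 < T * F := Nat.mul_pos hT (by omega)
    refine ⟨_, _, _, _, _, _, hc, ?_, ?_, ?_, ?_, ?_, ?_, ?_⟩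
    · have a1 : 0 < Q * F ^ 2 := Nat.mul_pos hQ (pow_pos (by omega) 2)
      have a2 : 0 < M * U * Rz ^ 3 := Nat.mul_pos (Nat.mul_pos hM hU) (pow_pos hRz 3)
      have a3 : 0 < P ^ 3 * P₂ := Nat.mul_pos (pow_pos hP1 3) hP₂
      have a4 := Nat.mul_pos (Nat.mul_pos a1 a2) a3
      exact Nat.mul_pos (by norm_num) a4
    · exact Nat.mul_pos (by norm_num) (Nat.mul_pos hTF (Nat.mul_pos hP1 hz0))
    · calc 50 * P * P₂ = P * (50 * P₂) := by ring
        _ ≤ 2 ^ Sb l * 2 ^ x.b := Nat.mul_le_mul h2 hP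
        _ = 2 ^ (x.b + Sb l) := by rw [← pow_add, add_comm]
    · calc 100000 * (T * F * (P * z)) * (51200 * Δ * (50 * P * P₂))
          = (100000 * 51200) * ((T * F) * (Δ * z) * (P ^ 2 * (50 * P₂))) := by ring
        _ ≤ (100000 * 51200) * (2 ^ St B l * (2 * 2 ^ x.r) * ((2 ^ Sb l) ^ 2 * 2 ^ x.b)) := by
            apply Nat.mul_le_mul_left
            apply Nat.mul_le_mul
            · exact Nat.mul_le_mul h3 (hz3.trans (Nat.mul_le_mul_left _ hR))
            · exact Nat.mul_le_mul (Nat.pow_le_pow_left h2 2) hP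
        _ = (100000 * 51200 * 2) * 2 ^ (St B l + x.r + (Sb l * 2 + x.b)) := by
            rw [← pow_mul, pow_add, pow_add, pow_add]; ring
        _ ≤ 2 ^ 34 * 2 ^ (St B l + x.r + (Sb l * 2 + x.b)) :=
            Nat.mul_le_mul_right _ (by norm_num)
        _ = 2 ^ (34 + (St B l + x.r + (Sb l * 2 + x.b))) := by rw [← pow_add]
        _ ≤ 2 ^ (34 + x.r + 2 * B + St B l) := Nat.pow_le_pow_right (by norm_num) (by omega)
    · calc N * (g * Rz * 260100) * P ^ 2
          ≤ 2 ^ Sn B l * (2 ^ x.t * 2 ^ x.r * 2 ^ 18) * (2 ^ Sb l) ^ 2 := by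
            apply Nat.mul_le_mul
            · exact Nat.mul_le_mul h4 (Nat.mul_le_mul (Nat.mul_le_mul hg hR) (by norm_num))
            · exact Nat.pow_le_pow_left h2 2
        _ = 2 ^ (Sn B l + (x.t + x.r + 18) + Sb l * 2) := by
            rw [← pow_add, ← pow_add, ← pow_mul, ← pow_add, ← pow_add]
        _ ≤ 2 ^ (18 + x.t + x.r + 2 * B + Sn B l) :=
            Nat.pow_le_pow_right (by norm_num) (by omega)
    · calc 2 ^ 68 * (Q * F ^ 2 * (M * U * Rz ^ 3) * (P ^ 3 * P₂)) *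
            (51200 * Δ * (50 * P * P₂)) ^ 2
          ≤ 2 ^ 68 * (2 ^ Sq B l * 2 ^ (x.w + 3 * x.r) * ((2 ^ Sb l) ^ 3 * 2 ^ x.b)) *
            (2 ^ 16 * 2 ^ x.r * (2 ^ Sb l * 2 ^ x.b)) ^ 2 := by
            apply Nat.mul_le_mul
            · apply Nat.mul_le_mul_left
              apply Nat.mul_le_mul (Nat.mul_le_mul h5 hMU)
              exact Nat.mul_le_mul (Nat.pow_le_pow_left h2 3) (by omega)
            · apply Nat.pow_le_pow_left
              apply Nat.mul_le_mul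
              · exact Nat.mul_le_mul (by norm_num) (hΔR.trans hR)
              · calc 50 * P * P₂ = P * (50 * P₂) := by ring
                  _ ≤ 2 ^ Sb l * 2 ^ x.b := Nat.mul_le_mul h2 hP
        _ = 2 ^ (68 + (Sq B l + (x.w + 3 * x.r) + (Sb l * 3 + x.b)) +
              (16 + x.r + (Sb l + x.b)) * 2) := by
            rw [← pow_mul, ← pow_add, ← pow_add, ← pow_add, ← pow_add, ← pow_add, ← pow_add,
              ← pow_add, ← pow_mul, ← pow_add]
        _ ≤ 2 ^ (100 + x.w + 5 * x.r + 5 * B + Sq B l) :=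
            Nat.pow_le_pow_right (by norm_num) (by omega)
    · have hPr := Pr_nonneg (fun y hy => hl y (List.mem_cons_of_mem x hy))
      have a1 : (2500 / 10506 * Pr l * N * 5253) * (x.β * g * 5253) ≤ (2500 * E) * (2500 * E₂) :=
        mul_le_mul h6 hr (by positivity) (by positivity)
      have a2 : (0:ℝ) ≤ Rz * (P:ℝ) ^ 2 * 50 := by positivity
      have a3 := mul_le_mul_of_nonneg_right a1 a2
      push_cast
      have a4 : 0 ≤ Pr l * N * (x.β * g) * (Rz * (P:ℝ) ^ 2) := by positivity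
      simp only [Pr]
      have e5 : 2500 / 10506 * (x.β * Pr l) * (N * (g * Rz * 260100) * (P:ℝ) ^ 2) * 5253 =
        (2500 / 10506 * 260100 * 5253) * (Pr l * N * (x.β * g) * (Rz * (P:ℝ) ^ 2)) := by ring
      have e6 : (2500 / 10506 * Pr l * N * 5253) * (x.β * g * 5253) * (Rz * (P:ℝ) ^ 2 * 50) =
        (2500 / 10506 * 5253 * 5253 * 50) * (Pr l * N * (x.β * g) * (Rz * (P:ℝ) ^ 2)) := by ring
      have e7 : (2500 * (E:ℝ)) * (2500 * E₂) * (Rz * (P:ℝ) ^ 2 * 50) =
        2500 * (E * (125000 * E₂ * Rz * (P:ℝ) ^ 2)) := by ring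
      rw [e6, e7] at a3
      rw [e5]
      refine le_trans ?_ a3
      apply mul_le_mul_of_nonneg_right _ a4
      norm_num

/-- a chain of blocks, rescaled, is a new block -/
theorem chain_up {d B : ℕ} (hd : 1 ≤ d) (l : List Bk) (hl : ∀ x ∈ l, x.Ok) (hf : Fits d B l)
    (hB : Sb l ≤ B) :
    Lv (Sn B l) (d + 1 + 2 * l.length) (d + 6 + 4 * l.length + Sq B l) (6 + B)
      (2500 / 10506 * Pr l / (d + 4)) := by
  obtain ⟨F, N, E, P, Q, T, h1, hQ, hT, h2, h3, h4, h5, h6⟩ := chain hd l hl hf hB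
  obtain ⟨Δ', E', h7, h8⟩ := h1.up hQ (Nat.one_le_pow _ _ (by norm_num))
  set n := l.length with hn
  have h3n : 3 ^ n ≤ 2 ^ (2 * n) := by
    rw [pow_mul]; exact Nat.pow_le_pow_left (by norm_num) n
  have hF : 1 ≤ F := by
    have := h1.2.2.1
    have := h1.1
    omega
  have hQ2 : Q ≤ 2 ^ Sq B l := by
    refine le_trans ?_ h5
    exact Nat.le_mul_of_pos_right _ (pow_pos hF 2)
  refine ⟨N, E', P, _, Δ', _, _, h7, h4, ?_, ?_, ?_, ?_⟩
  · calc 2 * 3 ^ n * 2 ^ d ≤ 2 * 2 ^ (2 * n) * 2 ^ d :=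
          Nat.mul_le_mul_right _ (Nat.mul_le_mul_left _ h3n)
      _ = 2 ^ (d + 1 + 2 * n) := by rw [← pow_succ', ← pow_add]; congr 1; ring
  · calc 4 * 2 ^ d * (3 ^ n) ^ 2 * (12 * Q)
        ≤ 2 ^ 2 * 2 ^ d * (2 ^ (2 * n)) ^ 2 * (2 ^ 4 * 2 ^ Sq B l) := by
          apply Nat.mul_le_mul
          · exact Nat.mul_le_mul (by norm_num) (Nat.pow_le_pow_left h3n 2)
          · exact Nat.mul_le_mul (by norm_num) hQ2
      _ = 2 ^ (d + 6 + 4 * n + Sq B l) := by
          rw [← pow_mul, ← pow_add, ← pow_add, ← pow_add, ← pow_add]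
          congr 1; ring
  · calc 50 * P ≤ 2 ^ 6 * 2 ^ B :=
          Nat.mul_le_mul (by norm_num) (h2.trans (Nat.pow_le_pow_right (by norm_num) hB))
      _ = 2 ^ (6 + B) := by rw [← pow_add]
  · have h10 : Nat.log 2 (12 * 2 ^ d) + 1 ≤ d + 4 := by
      have h11 : 12 * 2 ^ d < 2 ^ (d + 4) := by
        rw [pow_add]
        have : 0 < 2 ^ d := by positivity
        omega
      have h12 := Nat.log_lt_of_lt_pow (b := 2) (by positivity) h11
      omega
    have h11 : E ≤ E' * (d + 4) := h8.trans (Nat.mul_le_mul_left _ h10)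
    have h12 : (E:ℝ) ≤ E' * (d + 4) := by exact_mod_cast h11
    have hpos : (0:ℝ) < (d:ℝ) + 4 := by positivity
    rw [div_mul_eq_mul_div, div_mul_eq_mul_div, div_le_iff₀ hpos]
    linarith

end Pool.Agent.Run7.H12.HL
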