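import Pool.Agent.N35.HL.Iter

/-!
# Outer blocks with a free slot scale and a fixed common denominator

`HasG F N E P Q T L Rd` is an outer block whose slot scale is `1 / F`; all slopes are multiples of
`1 / Rd`.  A composition keeps the denominator `Rd`; it is only required that `Rd` is large enough.
-/

set_option linter.unusedSectionVars false
set_option linter.unusedVariables false
set_option maxHeartbeats 4000000

namespace Pool.Agent.Run7.H12.HL

open Finset Pool.Agent.N35.HL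

/-- outer block with `N` lines, `E` events, `P` slots per line, slot scale `1/F`, margins `1/Q`,
`1/T`, size `L`, slopes in multiples of `1/Rd` -/
def HasG (F N E P Q T L Rd : ℕ) : Prop :=
  1 ≤ P ∧ 1 ≤ E ∧ 51200 * P ≤ F ∧ ∃ (A R H : Type) (_ : Fintype A) (_ : Fintype R) (_ : Fintype H)
    (O : Out A R H) (k K : ℕ),
    O.Good k K (1 / F) (1 / Q) (1 / T) L Rd ∧
      Fintype.card A = N ∧ Fintype.card R = E ∧ Fintype.card H = P

section

variable {A R H : Type} [Fintype A] [Fintype H] {O : Out A R H} {k K Rd : ℕ}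
  {φ q Dl L : ℝ}

/-- smaller margins -/
lemma good_weaken (hO : O.Good k K φ q Dl L Rd) {q' Dl' : ℝ} (h0 : 0 < q') (h1 : q' ≤ q)
    (h2 : Dl' ≤ Dl) (h3 : q' ≤ Dl') : O.Good k K φ q' Dl' L Rd where
  hq := h0
  hqD := h3
  hL := hO.hL
  hRd := hO.hRd
  tie := hO.tie
  hD := fun e => h2.trans (hO.hD e)
  slopes := hO.slopes
  bs := hO.bs
  bt := hO.bt
  bX := hO.bX
  bxs := hO.bxs
  g1 := fun e c a b => h1.trans (hO.g1 e c a b)
  g2 := fun e c a b => le_trans (mul_le_mul_of_nonneg_right h1 (abs_nonneg _)) (hO.g2 e c a b)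
  w := fun e f h => h1.trans (hO.w e f h)
  level := hO.level
  real := hO.real
  rd1 := hO.rd1
  rd2 := hO.rd2
  inj := hO.inj
  dd := fun c h => by
    rcases hO.dd c h with h4 | ⟨h4, h5⟩
    · exact Or.inl h4
    · exact Or.inr ⟨h2.trans h4, h5⟩
  own := fun e c h a b => by
    obtain ⟨o1, o2, o3⟩ := hO.own e c h a b
    exact ⟨o1, h1.trans o2, h1.trans o3⟩
  far := fun e c h a b d => by
    rcases hO.far e c h a b d with h4 | h4
    · exact Or.inl (h1.trans h4)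
    · exact Or.inr h4
  dich := hO.dich
  th := hO.th
  slots := hO.slots

/-- multiples of the denominator -/
lemma good_mul (hO : O.Good k K φ q Dl L Rd) {m : ℕ} (hm : 1 ≤ m) :
    O.Good k K φ q Dl L (Rd * m) where
  hq := hO.hq
  hqD := hO.hqD
  hL := hO.hL
  hRd := Nat.mul_pos hO.hRd hm
  tie := hO.tie
  hD := hO.hD
  slopes := fun c => by
    obtain ⟨z, hz⟩ := hO.slopes c
    refine ⟨z * m, ?_⟩
    push_cast
    rw [← hz]; ring
  bs := hO.bs
  bt := hO.bt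
  bX := hO.bX
  bxs := hO.bxs
  g1 := hO.g1
  g2 := hO.g2
  w := hO.w
  level := hO.level
  real := hO.real
  rd1 := hO.rd1
  rd2 := hO.rd2
  inj := hO.inj
  dd := hO.dd
  own := hO.own
  far := hO.far
  dich := hO.dich
  th := fun e c h a b d => by
    have h1 := hO.th e c h a b d
    refine h1.trans ?_
    have h2 : (1:ℝ) ≤ m := by exact_mod_cast hm
    have h3 : (0:ℝ) ≤ (Rd:ℝ) * |O.F c e| := by positivity
    push_cast
    nlinarith
  slots := hO.slots

end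

lemma HasG.start {d : ℕ} (hd : 1 ≤ d) : HasG 51200 2 1 1 4 2 1 (2 ^ d) := by
  refine ⟨le_rfl, le_rfl, le_rfl, Bool, Unit, Unit, inferInstance, inferInstance, inferInstance,
    N35.HL.start, 0, 1, ?_, by simp, by simp, by simp⟩
  obtain ⟨e, rfl⟩ : ∃ e, d = e + 1 := ⟨d - 1, by omega⟩
  have h1 := start_good (φ := 1 / ((51200:ℕ):ℝ)) (by positivity)
  have h2 := good_mul h1 (m := 2 ^ e) Nat.one_le_two_pow
  rw [pow_succ, mul_comm (2 ^ e) 2]
  convert h2 using 1 <;> norm_num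

/-- the parameters of a composition -/
noncomputable def prmG (F P Q U Rz Δ P₂ Rd : ℕ) : Prm where
  Nx := 50 * P
  V₁ := 2500 * Rz * P
  Rz := Rz
  Δ := Δ
  Rd := Rd
  φ := 1 / F
  lam := 1 / (500 * Rz * (50 * P))
  κ := 1 / (2 ^ 18 * U * Rz * (50 * (50 * P * P₂)))
  ε := (1 / F) * (1 / Q) / (2 ^ 13 * (50 * P))

lemma aux_q {F Q M U Rz P P₂ : ℝ} (hF : 0 < F) (hQ : 0 < Q) (hM : 0 < M) (hU : 0 < U)
    (hR : 0 < Rz) (hP : 0 < P) (hP₂ : 0 < P₂) :
    1 / (2 ^ 68 * ((Q * F ^ 2) * (M * U * Rz ^ 3) * (P ^ 3 * P₂))) ≤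
    ((1 / F) * (1 / Q) / (2 ^ 13 * (50 * P))) * (1 / (2 ^ 18 * U * Rz * (50 * (50 * P * P₂)))) /
      (4 * M * Rz) * (1 / F * (1 / (500 * Rz * (50 * P))) / 2) / 4 := by
  have e : ((1 / F) * (1 / Q) / (2 ^ 13 * (50 * P))) *
      (1 / (2 ^ 18 * U * Rz * (50 * (50 * P * P₂)))) /
      (4 * M * Rz) * (1 / F * (1 / (500 * Rz * (50 * P))) / 2) / 4 =
      1 / ((16 * 2 ^ 13 * 50 * 2 ^ 18 * 2500 * 50000) *
        ((Q * F ^ 2) * (M * U * Rz ^ 3) * (P ^ 3 * P₂))) := by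
    field_simp
    norm_num
  rw [e]
  apply one_div_le_one_div_of_le (by positivity)
  apply mul_le_mul_of_nonneg_right _ (by positivity)
  norm_num

lemma aux_D {F T Rz P Δ z : ℝ} (hF : 0 < F) (hT : 0 < T) (hR : 0 < Rz) (hP : 0 < P)
    (hz : 0 < z) (h : Rz ≤ z * Δ) :
    1 / (100000 * ((T * F) * (P * z))) ≤
    1 / T * ((1 / F * (1 / (500 * Rz * (50 * P))) / 2) * Δ) / 2 := by
  have e : 1 / T * ((1 / F * (1 / (500 * Rz * (50 * P))) / 2) * Δ) / 2 =
      Δ / (100000 * ((T * F) * (P * Rz))) := by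
    field_simp
    ring
  rw [e, div_le_div_iff₀ (by positivity) (by positivity)]
  have h5 : (0:ℝ) ≤ 100000 * ((T * F) * P) := by positivity
  have h6 := mul_le_mul_of_nonneg_left h h5
  calc 1 * (100000 * (T * F * (P * Rz))) = 100000 * (T * F * P) * Rz := by ring
    _ ≤ 100000 * (T * F * P) * (z * Δ) := h6
    _ = Δ * (100000 * (T * F * (P * z))) := by ring

lemma aux_qD {F Q T M U Rz P P₂ z : ℝ} (hF : 1 ≤ F) (hQ : 0 < Q) (hM : 1 ≤ M) (hU : 1 ≤ U)
    (hR : 1 ≤ Rz) (hP : 1 ≤ P) (hP₂ : 1 ≤ P₂) (hT : 0 < T) (hTQ : T ≤ Q) (hz : 0 < z)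
    (hzR : z ≤ Rz) :
    1 / (2 ^ 68 * ((Q * F ^ 2) * (M * U * Rz ^ 3) * (P ^ 3 * P₂))) ≤
      1 / (100000 * ((T * F) * (P * z))) := by
  have hP0 : 0 < P := by linarith
  have hF0 : 0 < F := by linarith
  have hM0 : 0 < M := by linarith
  have hU0 : 0 < U := by linarith
  have hR0 : 0 < Rz := by linarith
  have hP₂0 : 0 < P₂ := by linarith
  apply one_div_le_one_div_of_le (by positivity)
  have b1 : T * F * (P * z) ≤ Q * F * (P * Rz) := by
    apply mul_le_mul _ _ (by positivity) (by positivity)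
    · exact mul_le_mul_of_nonneg_right hTQ hF0.le
    · exact mul_le_mul_of_nonneg_left hzR hP0.le
  have b2 : (1:ℝ) ≤ F * (M * U * Rz ^ 2) * (P ^ 2 * P₂) := by
    have c1 : (1:ℝ) ≤ M * U := one_le_mul_of_one_le_of_one_le hM hU
    have c2 : (1:ℝ) ≤ Rz ^ 2 := one_le_pow₀ hR
    have c3 : (1:ℝ) ≤ M * U * Rz ^ 2 := one_le_mul_of_one_le_of_one_le c1 c2
    have c4 : (1:ℝ) ≤ F * (M * U * Rz ^ 2) := one_le_mul_of_one_le_of_one_le hF c3
    have c5 : (1:ℝ) ≤ P ^ 2 := one_le_pow₀ hP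
    have c6 : (1:ℝ) ≤ P ^ 2 * P₂ := one_le_mul_of_one_le_of_one_le c5 hP₂
    exact one_le_mul_of_one_le_of_one_le c4 c6
  have b3 : (0:ℝ) ≤ Q * F * (P * Rz) := by positivity
  have b4 := mul_le_mul_of_nonneg_left b2 b3
  have b5 : 0 ≤ Q * F ^ 2 * (M * U * Rz ^ 3) * (P ^ 3 * P₂) := by positivity
  calc 100000 * (T * F * (P * z)) ≤ 100000 * (Q * F * (P * Rz)) := by linarith
    _ = 100000 * (Q * F * (P * Rz) * 1) := by ring
    _ ≤ 100000 * (Q * F * (P * Rz) * (F * (M * U * Rz ^ 2) * (P ^ 2 * P₂))) := by linarith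
    _ = 100000 * (Q * F ^ 2 * (M * U * Rz ^ 3) * (P ^ 3 * P₂)) := by ring
    _ ≤ 2 ^ 68 * (Q * F ^ 2 * (M * U * Rz ^ 3) * (P ^ 3 * P₂)) :=
      mul_le_mul_of_nonneg_right (by norm_num) b5

lemma aux_rd {F T M U Rz P P₂ Rd : ℝ} (hF : 0 < F) (hT : 0 < T) (hM : 0 < M) (hU : 0 < U)
    (hR : 0 < Rz) (hP : 1 ≤ P) (hP₂ : 0 < P₂)
    (hc : 2 ^ 59 * ((T * F) * (M * U * Rz ^ 3) * (P ^ 3 * P₂)) ≤ Rd) :
    200 * (M * Rz * (50 * P + 2)) ≤ Rd * (1 / T) *
      (1 / F * (1 / (500 * Rz * (50 * P))) / 2 * (1 / (2 ^ 18 * U * Rz * (50 * (50 * P * P₂))))) := by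
  have hP0 : 0 < P := by linarith
  have e1 : Rd * (1 / T) *
      (1 / F * (1 / (500 * Rz * (50 * P))) / 2 *
      (1 / (2 ^ 18 * U * Rz * (50 * (50 * P * P₂))))) =
      Rd / (T * F * (500 * 50 * 2 * 2 ^ 18 * 2500) * (U * Rz ^ 2 * P ^ 2 * P₂)) := by
    field_simp
    norm_num
  rw [e1, le_div_iff₀ (by positivity)]
  have h2 : (50 * P + 2) ≤ 52 * P := by linarith
  have h3 : 200 * (M * Rz * (50 * P + 2)) *
      (T * F * (500 * 50 * 2 * 2 ^ 18 * 2500) * (U * Rz ^ 2 * P ^ 2 * P₂)) ≤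
    200 * (M * Rz * (52 * P)) *
      (T * F * (500 * 50 * 2 * 2 ^ 18 * 2500) * (U * Rz ^ 2 * P ^ 2 * P₂)) := by
    apply mul_le_mul_of_nonneg_right _ (by positivity)
    apply mul_le_mul_of_nonneg_left _ (by norm_num)
    exact mul_le_mul_of_nonneg_left h2 (by positivity)
  refine h3.trans (le_trans ?_ hc)
  have e2 : 200 * (M * Rz * (52 * P)) *
      (T * F * (500 * 50 * 2 * 2 ^ 18 * 2500) * (U * Rz ^ 2 * P ^ 2 * P₂)) =
    (200 * 52 * (500 * 50 * 2 * 2 ^ 18 * 2500)) *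
      ((T * F) * (M * U * Rz ^ 3) * (P ^ 3 * P₂)) := by ring
  rw [e2]
  apply mul_le_mul_of_nonneg_right _ (by positivity)
  norm_num

theorem HasG.comp {F N E P Q T L Rd g E₂ P₂ Rz Δ U M z : ℕ} (hO : HasG F N E P Q T L Rd)
    (hI : HasI g E₂ P₂ Rz Δ U M) (hQ1 : 1 ≤ Q) (hT1 : 1 ≤ T) (hz : Rz ≤ z * Δ)
    (hzR : z ≤ Rz) (hc : 2 ^ 59 * ((T * F) * (M * U * Rz ^ 3) * (P ^ 3 * P₂)) ≤ Rd) :
    HasG (51200 * Δ * (50 * P * P₂)) (N * (g * Rz * 260100) * P ^ 2)
      (E * (125000 * E₂ * Rz * P ^ 2)) (50 * P * P₂)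
      (2 ^ 68 * ((Q * F ^ 2) * (M * U * Rz ^ 3) * (P ^ 3 * P₂)))
      (100000 * ((T * F) * (P * z))) (3 * L) Rd := by
  obtain ⟨hP, hE, hF, A, R, H, _, _, _, O, k₁, K₁, hO, hA, hR, hH⟩ := hO
  obtain ⟨hP₂, hE₂, G, R₂, H₂, _, _, _, I, k₂, hI, hG, hR₂, hH₂⟩ := hI
  have hRne : Nonempty R₂ := Fintype.card_pos_iff.mp (by omega)
  obtain ⟨r⟩ := hRne
  obtain ⟨K, -, hK⟩ := Finset.exists_subset_card_eq
    (show k₂ ≤ (Finset.univ : Finset G).card from by rw [Finset.card_univ]; exact hI.k_le r)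
  set p := prmG F P Q U Rz Δ P₂ Rd with hp
  -- positivity of all parameters
  have hΔ := hI.hΔ
  have hΔR := hI.hΔR
  have hRz : 1 ≤ Rz := hΔ.trans hΔR
  have hU1 : (1:ℝ) ≤ U := hI.hU
  have hM1 : (1:ℝ) ≤ M := hI.hM
  have hPr : (1:ℝ) ≤ P := by exact_mod_cast hP
  have hP₂r : (1:ℝ) ≤ P₂ := by exact_mod_cast hP₂
  have hΔr : (1:ℝ) ≤ Δ := by exact_mod_cast hΔ
  have hRzr : (1:ℝ) ≤ Rz := by exact_mod_cast hRz
  have hΔRr : (Δ:ℝ) ≤ Rz := by exact_mod_cast hΔR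
  have hQr : (1:ℝ) ≤ Q := by exact_mod_cast hQ1
  have hTr : (1:ℝ) ≤ T := by exact_mod_cast hT1
  have hFr : 51200 * (P:ℝ) ≤ F := by exact_mod_cast hF
  have hF1 : (1:ℝ) ≤ F := by linarith
  have hP0 : (0:ℝ) < P := by linarith
  have hP₂0 : (0:ℝ) < P₂ := by linarith
  have hΔ0 : (0:ℝ) < Δ := by linarith
  have hRz0 : (0:ℝ) < Rz := by linarith
  have hQ0 : (0:ℝ) < Q := by linarith
  have hT0 : (0:ℝ) < T := by linarith
  have hU0 : (0:ℝ) < U := by linarith
  have hM0 : (0:ℝ) < M := by linarith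
  have hF0 : (0:ℝ) < F := by linarith
  have hcr2 : (2:ℝ) ^ 59 * ((T * F) * (M * U * Rz ^ 3) * (P ^ 3 * P₂)) ≤ Rd := by
    exact_mod_cast hc
  have eV : (p.V : ℝ) = Rz * (50 * P) + 2500 * Rz * P := by
    have : p.V = Rz * (50 * P) + 2500 * Rz * P := rfl
    rw [this]; push_cast; ring
  have hφe : p.φ = 1 / F := rfl
  have hle : p.lam = 1 / (500 * Rz * (50 * P)) := rfl
  have hκe : p.κ = 1 / (2 ^ 18 * U * Rz * (50 * (50 * P * P₂))) := rfl
  have hεe : p.ε = (1 / F) * (1 / Q) / (2 ^ 13 * (50 * P)) := rfl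
  have hNxe : (p.Nx : ℝ) = 50 * P := by
    have : p.Nx = 50 * P := rfl
    rw [this]; push_cast; ring
  have hRze : (p.Rz : ℝ) = Rz := rfl
  have hΔe : (p.Δ : ℝ) = Δ := rfl
  have hRde : (p.Rd : ℝ) = Rd := rfl
  have hδe : p.δ = 1 / F * (1 / (500 * Rz * (50 * P))) / 2 := rfl
  have hOK : p.OK (1 / (51200 * Δ * ((50 * P * P₂ : ℕ) : ℝ))) (1 / Q) (1 / T) U M := by
    refine
      { hNx := by change 1 ≤ 50 * P; omega
        hΔ := hΔ
        hΔR := hΔR
        hRd := hO.hRd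
        hq := by positivity
        hq1 := by rw [div_le_one hQ0]; exact hQr
        hqD := hO.hqD
        hφ0 := by rw [hφe]; positivity
        hφ1 := ?_
        hl0 := by rw [hle]; positivity
        hl1 := ?_
        hU := hU1
        hM := hM1
        hκ0 := by rw [hκe]; positivity
        hκ1 := ?_
        hκ2 := ?_
        hφ' := by positivity
        hφ'1 := ?_
        hε0 := by rw [hεe]; positivity
        hε1 := ?_
        hrd := ?_ }
    · rw [hφe, hNxe, div_mul_eq_mul_div, div_le_div_iff₀ (by positivity) (by norm_num)]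
      nlinarith
    · rw [hle, hNxe, hRze, eV, div_mul_eq_mul_div, div_le_div_iff₀ (by positivity) (by norm_num)]
      have : (1:ℝ) ≤ Rz * P := by nlinarith
      nlinarith
    · rw [hκe, hle, div_mul_eq_mul_div, div_div, div_le_div_iff₀ (by positivity) (by positivity)]
      have a1 : (U:ℝ) + 1 ≤ 2 * U := by linarith
      have a2 : (0:ℝ) < Rz * P := by positivity
      have a3 : (Rz * P : ℝ) * 1 ≤ Rz * P * P₂ := mul_le_mul_of_nonneg_left hP₂r a2.le
      have a4 : (1 * ((U:ℝ) + 1)) * (500 * Rz * (50 * P) * 64) ≤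
          (2 * U) * (500 * Rz * (50 * P) * 64) := by
        apply mul_le_mul_of_nonneg_right _ (by positivity)
        linarith
      refine a4.trans ?_
      have a5 : (U:ℝ) * (Rz * P * 1) ≤ U * (Rz * P * P₂) := mul_le_mul_of_nonneg_left a3 hU0.le
      have a6 : (0:ℝ) < U * (Rz * P * P₂) := by positivity
      nlinarith
    · rw [hκe, hΔe]
      have a1 : (U:ℝ) + 1 ≤ 2 * U := by linarith
      have e1 : (1 / (51200 * (Δ:ℝ) * ((50 * P * P₂ : ℕ) : ℝ))) * Δ = 1 / (51200 * (50 * P * P₂)) := by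
        push_cast
        field_simp
      rw [e1, div_mul_eq_mul_div, mul_div_assoc', div_le_div_iff₀ (by positivity) (by positivity)]
      have a2 : (0:ℝ) < P * P₂ := by positivity
      have a3 : (U * (P * P₂) : ℝ) * 1 ≤ U * (P * P₂) * Rz :=
        mul_le_mul_of_nonneg_left hRzr (by positivity)
      have a4 : (128 * (1 * ((U:ℝ) + 1))) * (51200 * (50 * P * P₂)) ≤
          (128 * (2 * U)) * (51200 * (50 * P * P₂)) := by
        apply mul_le_mul_of_nonneg_right _ (by positivity)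
        linarith
      refine a4.trans ?_
      nlinarith
    · rw [hΔe, hNxe]
      have e1 : (1 / (51200 * (Δ:ℝ) * ((50 * P * P₂ : ℕ) : ℝ))) * Δ = 1 / (51200 * (50 * P * P₂)) := by
        push_cast
        field_simp
      rw [e1, mul_div_assoc', div_mul_eq_mul_div, div_le_one (by positivity)]
      have a3 : (P : ℝ) * 1 ≤ P * P₂ := mul_le_mul_of_nonneg_left hP₂r hP0.le
      nlinarith
    · rw [hεe, hφe, hNxe]
      have e1 : 400 * ((1 / (F:ℝ)) * (1 / Q) / (2 ^ 13 * (50 * P)) * (50 * P + 6)) =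
        (1 / (F:ℝ) * (1 / Q)) * (400 * (50 * P + 6) / (2 ^ 13 * (50 * P))) := by ring
      rw [e1]
      have h1 : 400 * (50 * (P:ℝ) + 6) / (2 ^ 13 * (50 * P)) ≤ 1 := by
        rw [div_le_one (by positivity)]; nlinarith
      have h2 : 0 ≤ (1 / (F:ℝ) * (1 / Q)) := by positivity
      nlinarith
    · rw [hRde, hRze, hNxe, hδe, hκe]
      exact aux_rd hF0 hT0 hM0 hU0 hRz0 hPr hP₂0 hcr2
  obtain ⟨k, K', hgood⟩ := comp_good (K := K) (p := p) (m := 1) hO hI hOK hK (by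
      change Rd = Rd * 1
      rw [mul_one])
  refine ⟨?_, ?_, ?_, Idx A G H p.Nx p.V, Ev' R R₂ p.Nx p.V₁, Fin p.Nx × H₂, inferInstance,
    inferInstance, inferInstance, N35.HL.comp O I p K, k, K', ?_, ?_, ?_, ?_⟩
  · exact Nat.one_le_iff_ne_zero.mpr (by
      have : P ≠ 0 := by omega
      have : P₂ ≠ 0 := by omega
      positivity)
  · exact Nat.one_le_iff_ne_zero.mpr (by
      have : P ≠ 0 := by omega
      have : E ≠ 0 := by omega
      have : E₂ ≠ 0 := by omega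
      have : Rz ≠ 0 := by omega
      positivity)
  · calc 51200 * (50 * P * P₂) = 51200 * 1 * (50 * P * P₂) := by ring
      _ ≤ 51200 * Δ * (50 * P * P₂) :=
        Nat.mul_le_mul_right _ (Nat.mul_le_mul_left _ hΔ)
  · have hz0 : 1 ≤ z := by
      by_contra h
      have : z = 0 := by omega
      subst this
      omega
    have hzr : (1:ℝ) ≤ z := by exact_mod_cast hz0
    have hzz : (Rz:ℝ) ≤ z * Δ := by exact_mod_cast hz
    have hTQ : (T:ℝ) ≤ Q := by
      have h8 := hO.hqD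
      rwa [div_le_div_iff₀ hQ0 hT0, one_mul, one_mul] at h8
    have hzR' : (z:ℝ) ≤ Rz := by exact_mod_cast hzR
    have q1 : 1 / (2 ^ 68 * (((Q:ℝ) * F ^ 2) * (M * U * Rz ^ 3) * (P ^ 3 * P₂))) ≤
        p.qs M * p.δ / 4 := by
      have e1 : p.qs M = p.ε * p.κ / (4 * M * Rz) := rfl
      rw [e1, hεe, hκe, hδe]
      exact aux_q hF0 hQ0 hM0 hU0 hRz0 hP0 hP₂0
    have q2 : 1 / (100000 * (((T:ℝ) * F) * (P * z))) ≤ (1:ℝ) / T * (p.δ * p.Δ) / 2 := by
      rw [hδe, hΔe]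
      exact aux_D hF0 hT0 hRz0 hP0 (by linarith) hzz
    have q3 := aux_qD hF1 hQ0 hM1 hU1 hRzr hPr hP₂r hT0 hTQ (by linarith) hzR'
    have hgood' := good_weaken hgood (by positivity) q1 q2 q3
    convert hgood' using 1
    · push_cast; ring
    · push_cast; ring
    · push_cast; ring
    · push_cast; ring
    · rfl
  · simp only [Fintype.card_prod, Fintype.card_sum, Fintype.card_fin, Fintype.card_bool, hA, hG, hH]
    have e1 : p.Nx = 50 * P := rfl
    have e2 : p.V = Rz * (50 * P) + 2500 * Rz * P := rfl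
    rw [e1, e2]; ring
  · simp only [Fintype.card_prod, Fintype.card_fin, hR, hR₂]
    have e1 : p.Nx = 50 * P := rfl
    have e2 : p.V₁ = 2500 * Rz * P := rfl
    rw [e1, e2]; ring
  · simp only [Fintype.card_prod, Fintype.card_fin, hH₂]
    have e1 : p.Nx = 50 * P := rfl
    rw [e1]

end Pool.Agent.Run7.H12.HL
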